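import Pool.Agent.helper10.QT.SpecY

/-!
Row AMF of project AT (MP_bf63dc_nt), owner helper10: theorem (a), assembly from GRA and AGE.
-/

set_option autoImplicit false

namespace Pool.Agent.AT

open Finset Pool.Agent.helper85.FC

open scoped Pointwise

/-- A positive rational is the quotient of its numerator and its denominator. -/
theorem AMF_quot (x : ℚ) (hx : 0 < x) : (x.num.natAbs : ℚ) / (x.den : ℚ) = x := by
  have h0 : (0 : ℤ) < x.num := Rat.num_pos.2 hx
  have h1 : ((x.num.natAbs : ℕ) : ℤ) = x.num := Int.natAbs_of_nonneg h0.le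
  have h2 : (x.num.natAbs : ℚ) = (x.num : ℚ) := by
    rw [← h1]
    simp
  rw [h2]
  exact Rat.num_div_den x

/-- Elements of a third power. -/
theorem AMF_pow3 {G : Type} [CommGroup G] (S : Set G) (g : G) (hg : g ∈ S ^ 3) :
    ∃ a ∈ S, ∃ b ∈ S, ∃ c ∈ S, g = a * b * c := by
  rw [pow_succ, pow_two] at hg
  obtain ⟨u, hu, c, hc, huc⟩ := Set.mem_mul.1 hg
  obtain ⟨a, ha, b, hb, hab⟩ := Set.mem_mul.1 hu
  exact ⟨a, ha, b, hb, c, hc, by rw [hab, huc]⟩

theorem AMF (h1 : GRA_stmt) (h2 : AGE_stmt) : AMF_stmt := by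
  intro K hA1 hAinv hA4 hAlt
  have hmemP : ∀ x : ℚˣ, x ∈ Units.posSubgroup ℚ ↔ 0 < (x : ℚ) := fun x => Units.mem_posSubgroup x
  obtain ⟨S, hS⟩ : ∃ S : Set (Units.posSubgroup ℚ), S = {x : Units.posSubgroup ℚ | AmpR ((x : ℚˣ) : ℚ)} := ⟨_, rfl⟩
  have hmS : ∀ x : Units.posSubgroup ℚ, x ∈ S ↔ AmpR ((x : ℚˣ) : ℚ) := by
    intro x
    rw [hS]
    rfl
  have hS1 : (1 : Units.posSubgroup ℚ) ∈ S := by
    rw [hmS]
    simpa using hA1
  have hSinv : ∀ x ∈ S, x⁻¹ ∈ S := by
    intro x hx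
    rw [hmS] at hx ⊢
    have h := hAinv _ ((hmemP _).1 x.2) hx
    simpa using h
  have hS4 : ∀ x : Fin 4 → Units.posSubgroup ℚ, Function.Injective x →
      ∃ i j, i ≠ j ∧ x i / x j ∈ S ^ 1 := by
    intro x hx
    obtain ⟨i, j, hij, h⟩ := hA4 (fun i => ((x i : ℚˣ) : ℚ)) (fun i => (hmemP _).1 (x i).2)
      (fun i j hij => hx (Subtype.ext (Units.ext hij)))
    refine ⟨i, j, hij, ?_⟩
    rw [pow_one, hmS]
    simpa using h
  rcases h1 S 1 hS1 hSinv hS4 with ⟨H, hidx, _, hHS⟩ | hB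
  · left
    rw [pow_one] at hHS
    have hmH : ∀ x : Units.posSubgroup ℚ, x ∈ H ↔ AmpR ((x : ℚˣ) : ℚ) := by
      intro x
      rw [← hmS, ← hHS]
      rfl
    have hback : (H.map (Units.posSubgroup ℚ).subtype).subgroupOf (Units.posSubgroup ℚ) = H :=
      Subgroup.comap_map_eq_self_of_injective (Subgroup.subtype_injective _) H
    have hrel : (H.map (Units.posSubgroup ℚ).subtype).relIndex (Units.posSubgroup ℚ) = H.index := by
      rw [Subgroup.relIndex, hback]
    have hmem : ∀ (x : ℚˣ) (hx : x ∈ Units.posSubgroup ℚ),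
        x ∈ H.map (Units.posSubgroup ℚ).subtype ↔ (⟨x, hx⟩ : Units.posSubgroup ℚ) ∈ H := by
      intro x hx
      constructor
      · intro h
        obtain ⟨y, hy, hyx⟩ := Subgroup.mem_map.1 h
        have : y = ⟨x, hx⟩ := Subtype.ext hyx
        rw [← this]
        exact hy
      · intro h
        exact Subgroup.mem_map.2 ⟨_, h, rfl⟩
    have hne : ∃ g : Units.posSubgroup ℚ, g ∉ H := by
      by_contra hcon
      push Not at hcon
      have htop : H = ⊤ := (Subgroup.eq_top_iff' H).2 hcon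
      rw [htop, Subgroup.index_top] at hidx
      omega
    obtain ⟨g, hg⟩ := hne
    refine ⟨H.map (Units.posSubgroup ℚ).subtype, Subgroup.map_subtype_le H, ?_, ?_⟩
    · rw [hrel]
      exact hidx
    · intro x hx
      refine ⟨?_, ?_⟩
      · intro hxH
        have hxH' : (⟨x, hx⟩ : Units.posSubgroup ℚ) ∈ H := (hmem x hx).1 hxH
        have hx0 : 0 < (x : ℚ) := (hmemP x).1 hx
        have hn0 : 0 < (x : ℚ).num.natAbs := Int.natAbs_pos.2 (Rat.num_pos.2 hx0).ne'
        rcases hAlt (x : ℚ).num.natAbs (x : ℚ).den hn0 (x : ℚ).den_pos (x : ℚ).reduced with h | h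
        · exact h
        · exfalso
          obtain ⟨j, _, hj⟩ := h2 _ _ hn0 (x : ℚ).den_pos h ((g : ℚˣ) : ℚ) ((hmemP _).1 g.2)
          rw [AMF_quot _ hx0] at hj
          have hin : g * (⟨x, hx⟩ : Units.posSubgroup ℚ) ^ j ∈ H := by
            rw [hmH]
            simpa using hj
          have hpow : (⟨x, hx⟩ : Units.posSubgroup ℚ) ^ j ∈ H := H.pow_mem hxH' j
          exact hg ((Subgroup.mul_mem_cancel_right H hpow).1 hin)
      · rw [hmem x hx, hmH]
  · right
    intro x hx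
    obtain ⟨a, ha, b, hb, c, hc, habc⟩ := AMF_pow3 S _ (hB ⟨x, hx⟩)
    rw [hmS] at ha hb hc
    refine ⟨![(a : ℚˣ), (b : ℚˣ), (c : ℚˣ)], ?_, ?_⟩
    · intro i
      fin_cases i
      · exact ⟨a.2, ha⟩
      · exact ⟨b.2, hb⟩
      · exact ⟨c.2, hc⟩
    · have h := congrArg (fun z : Units.posSubgroup ℚ => (z : ℚˣ)) habc
      simpa [Fin.prod_univ_three] using h

end Pool.Agent.AT
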